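import Pool.Agent.R650.SoBoFin

/-!
# A group whose finitary ballean is so-bounded but not bo-bounded

Full (negative) answer to question Q1 of problem MP_769d7c_al. The group is the subgroup of
`SL₂(ℝ[X])` generated by the elementary matrices. The definitions are those of
`Pool/Agent/R650/SoBo.lean`:

* `ball F x`: the ball `{x} ∪ F x`;
* `BoundedlyOscillating f`, `SlowlyOscillating f`: as in the problem file, with `Metric.diam` of the
  finite set `f (ball F x)`;
* `BoBounded G`, `SoBounded G`: every boundedly (slowly) oscillating function on `G` is bounded
  outside a finite set.
-/

set_option autoImplicit false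

namespace Pool.Agent.Results.MP_769d7c_al.SoNotBo

open Pool.Agent.R650.SoBo (SoBounded BoBounded)

/-- There is a group whose finitary ballean is so-bounded but not bo-bounded. -/
theorem result : ∃ (G : Type) (_ : Group G), SoBounded G ∧ ¬ BoBounded G :=
  Pool.Agent.R650.SL2.main

end Pool.Agent.Results.MP_769d7c_al.SoNotBo
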